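import Pool.Agent.Lib_MP_38b588_al.Quad

set_option autoImplicit false

namespace Pool.Agent.Lib_MP_38b588_al

open Monoid.Coprod Filter Hindman
open scoped commutatorElement

variable {G : Type*} [Group G]

/-- conjugation by an element of the normalizer -/
def conjE (M : Subgroup G) (g : G) (hg : g ∈ Subgroup.normalizer (M : Set G)) : M ≃* M where
  toFun x := ⟨g⁻¹ * x * g, (Subgroup.mem_normalizer_iff''.1 hg _).1 x.2⟩
  invFun x := ⟨g * x * g⁻¹, (Subgroup.mem_normalizer_iff.1 hg _).1 x.2⟩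
  left_inv x := by ext; simp [mul_assoc]
  right_inv x := by ext; simp [mul_assoc]
  map_mul' x y := by ext; simp [mul_assoc]

lemma IsQuad.zpow {K : Type*} [Group K] (hK : TwoStep K) (k : ℤ) : IsQuad (fun x : K => x ^ k) := by
  induction k using Int.induction_on with
  | zero => simpa using IsQuad.const_one
  | succ i ih =>
    have := ih.mul hK IsQuad.id
    simpa [zpow_add_one] using this
  | pred i ih =>
    have := ih.mul hK (IsQuad.inv hK)
    simpa [zpow_sub_one] using this

/-- every one-variable polynomial map is quadratic along two-step subgroups normalized by a suitable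
finite set -/
lemma exists_quad (p : Monoid.Coprod G (Multiplicative ℤ)) :
    ∃ S : Finset G, ∀ M : Subgroup G, (∀ s ∈ S, s ∈ Subgroup.normalizer (M : Set G)) → TwoStep M →
      ∃ ψ : M → M, IsQuad ψ ∧ ∀ x : M, ev (x : G) p = ev 1 p * (ψ x : G) := by
  classical
  induction p using Monoid.Coprod.induction_on with
  | inl g =>
    refine ⟨∅, fun M _ _ => ⟨fun _ => 1, IsQuad.const_one, ?_⟩⟩
    intro x; simp
  | inr k =>
    refine ⟨∅, fun M _ hM => ⟨fun x => x ^ (Multiplicative.toAdd k), IsQuad.zpow hM _, ?_⟩⟩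
    intro x; simp
  | mul p q hp hq =>
    obtain ⟨S, hS⟩ := hp
    obtain ⟨S', hS'⟩ := hq
    refine ⟨S ∪ S' ∪ {ev 1 q}, ?_⟩
    intro M hM h2
    obtain ⟨ψ₁, h1, e1⟩ := hS M (fun s hs => hM s (by simp [hs])) h2
    obtain ⟨ψ₂, h2', e2⟩ := hS' M (fun s hs => hM s (by simp [hs])) h2
    have hg : ev 1 q ∈ Subgroup.normalizer (M : Set G) := hM _ (by simp)
    refine ⟨fun x => conjE M (ev 1 q) hg (ψ₁ x) * ψ₂ x, (h1.comp_equiv _).mul h2 h2', ?_⟩
    intro x
    rw [map_mul, map_mul, e1, e2]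
    simp [conjE, mul_assoc]

/-- **Uniform bound.** If `G` is verbally discrete, then the orders of the subgroups of `G` which
are nilpotent of class at most two and normalized by a certain finite set are bounded. -/
theorem bounded_of_verballyDiscrete (hV : VerballyDiscrete G) :
    ∃ (S : Finset G) (N : ℕ), ∀ M : Subgroup G, (∀ s ∈ S, s ∈ Subgroup.normalizer (M : Set G)) →
      TwoStep M → Finite M ∧ Nat.card M ≤ N := by
  classical
  obtain ⟨E, hE1, hE2⟩ := hV
  choose S hS using (exists_quad (G := G))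
  refine ⟨E.biUnion S, ?_⟩
  by_contra hcon
  push Not at hcon
  choose M hM1 hM2 hM3 using hcon
  -- large subgroups avoid small finite sets
  have hbig : ∀ (m : ℕ) (F : Finset G), F.card ≤ m → ∃ v ∈ M m, v ∉ F := by
    intro m F hF
    by_contra hno
    push Not at hno
    have hfin : ((M m : Set G)).Finite := F.finite_toSet.subset hno
    have hfin' : Finite (M m) := hfin
    have h1 := hM3 m hfin'
    have h2 : Nat.card (M m) ≤ Nat.card F :=
      Nat.card_le_card_of_injective (fun v : M m => (⟨v.1, hno v.1 v.2⟩ : F))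
        (fun v w h => Subtype.ext (Subtype.mk.inj h))
    have h3 : Nat.card F = F.card := by simp
    omega
  -- choice of the next sequence
  have hnext : ∀ P : Finset (ℕ → G), ∃ a : ℕ → G, (∀ m, a m ∈ M m) ∧
      ∀ q ∈ P, ∀ᶠ m in atTop, q m * a m ≠ 1 := by
    intro P
    have h : ∀ m : ℕ, ∃ v ∈ M m, P.card ≤ m → ∀ q ∈ P, q m * v ≠ 1 := by
      intro m
      by_cases hPm : P.card ≤ m
      · obtain ⟨v, hv, hv'⟩ := hbig m (P.image (fun q => (q m)⁻¹)) (Finset.card_image_le.trans hPm)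
        refine ⟨v, hv, fun _ q hq h1 => hv' ?_⟩
        rw [Finset.mem_image]
        exact ⟨q, hq, (eq_inv_of_mul_eq_one_right h1).symm⟩
      · exact ⟨1, (M m).one_mem, fun h => absurd h hPm⟩
    choose v hv1 hv2 using h
    refine ⟨v, hv1, fun q hq => ?_⟩
    filter_upwards [eventually_ge_atTop P.card] with m hm
    exact hv2 m hm q hq
  choose ch hch1 hch2 using hnext
  let P : ℕ → Finset (ℕ → G) := fun k =>
    Nat.rec {1} (fun _ P => P ∪ P.image (fun q => q * ch P)) k
  have hP0 : P 0 = {1} := rfl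
  have hPs : ∀ k, P (k + 1) = P k ∪ (P k).image (fun q => q * ch (P k)) := fun _ => rfl
  let a : Stream' (ℕ → G) := fun k => ch (P k)
  have ha : ∀ n, (a.drop n).head = ch (P n) := by
    intro n
    simp [Stream'.head, Stream'.drop, Stream'.get, a]
  have htail : ∀ n, (a.drop n).tail = a.drop (n + 1) := by
    intro n
    rw [← Stream'.drop_drop, ← Stream'.tail_eq_drop]
  -- products avoid 1 eventually
  have key : ∀ (b : Stream' (ℕ → G)) (s : ℕ → G), s ∈ FP b → ∀ n, b = a.drop n →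
      (∀ m, s m ∈ M m) ∧ ∀ q ∈ P n, ∃ k, ∃ q' ∈ P k, q * s = q' * ch (P k) := by
    intro b s hs
    induction hs with
    | head' b =>
      rintro n rfl
      rw [ha]
      exact ⟨hch1 _, fun q hq => ⟨n, q, hq, rfl⟩⟩
    | tail' b s _ ih =>
      rintro n rfl
      obtain ⟨h1, h2⟩ := ih (n + 1) (htail n)
      refine ⟨h1, fun q hq => h2 q ?_⟩
      rw [hPs]; exact Finset.mem_union_left _ hq
    | cons' b s _ ih =>
      rintro n rfl
      obtain ⟨h1, h2⟩ := ih (n + 1) (htail n)
      rw [ha]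
      refine ⟨fun m => (M m).mul_mem (hch1 _ m) (h1 m), fun q hq => ?_⟩
      obtain ⟨k, q', hq', e⟩ := h2 (q * ch (P n)) (by
        rw [hPs]; exact Finset.mem_union_right _ (Finset.mem_image_of_mem _ hq))
      exact ⟨k, q', hq', by rw [← mul_assoc, e]⟩
  -- the ultrafilter
  let U : Ultrafilter ℕ := Ultrafilter.of atTop
  have hU : (U : Filter ℕ) ≤ atTop := Ultrafilter.of_le atTop
  let c : Monoid.Coprod G (Multiplicative ℤ) → Set (ℕ → G) := fun p =>
    {s | (∀ m, s m ∈ M m) ∧ ∀ᶠ m in (U : Filter ℕ), ev (s m) p = 1}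
  have hcov : FP a ⊆ ⋃₀ (c '' (E : Set (Monoid.Coprod G (Multiplicative ℤ)))) := by
    intro s hs
    obtain ⟨h1, h2⟩ := key a s hs 0 rfl
    obtain ⟨k, q', hq', e⟩ := h2 1 (by simp [hP0])
    rw [one_mul] at e
    have h3 : ∀ᶠ m in atTop, s m ≠ 1 := by
      filter_upwards [hch2 (P k) q' hq'] with m hm
      rw [e]; exact hm
    have h4 : ∀ᶠ m in (U : Filter ℕ), ∃ p ∈ (E : Set (Monoid.Coprod G (Multiplicative ℤ))), ev (s m) p = 1 := by
      filter_upwards [h3.filter_mono hU] with m hm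
      exact hE2 _ hm
    rw [Ultrafilter.eventually_exists_mem_iff E.finite_toSet] at h4
    obtain ⟨p, hp, hp1⟩ := h4
    exact ⟨c p, ⟨p, hp, rfl⟩, h1, hp1⟩
  obtain ⟨_, ⟨p, hp, rfl⟩, b, hb⟩ := FP_partition_regular a _ (E.finite_toSet.image c) hcov
  -- the seven products
  set x := b.head with hx
  set y := b.tail.head with hy
  set z := b.tail.tail.head with hz
  have fx : x ∈ FP b := FP.head b
  have fy' : y ∈ FP b.tail := FP.head _
  have fz' : z ∈ FP b.tail := FP.tail _ _ (FP.head _)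
  have fyz' : y * z ∈ FP b.tail := FP.cons _ _ (FP.head _)
  have fy : y ∈ FP b := FP.tail _ _ fy'
  have fz : z ∈ FP b := FP.tail _ _ fz'
  have fyz : y * z ∈ FP b := FP.tail _ _ fyz'
  have fxy : x * y ∈ FP b := FP.cons _ _ fy'
  have fxz : x * z ∈ FP b := FP.cons _ _ fz'
  have fxyz : x * (y * z) ∈ FP b := FP.cons _ _ fyz'
  have hev := ((hb fx).2.and (hb fy).2).and (((hb fz).2.and (hb fyz).2).and
    ((hb fxy).2.and ((hb fxz).2.and (hb fxyz).2)))
  obtain ⟨m, ⟨e1, e2⟩, ⟨e3, e4⟩, e5, e6, e7⟩ := hev.exists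
  obtain ⟨ψ, hψ, hψe⟩ := hS p (M m) (fun s hs => hM1 m s (Finset.mem_biUnion.2 ⟨p, hp, hs⟩)) (hM2 m)
  let x' : M m := ⟨x m, (hb fx).1 m⟩
  let y' : M m := ⟨y m, (hb fy).1 m⟩
  let z' : M m := ⟨z m, (hb fz).1 m⟩
  have hval : ∀ t : M m, ev (t : G) p = 1 → (ψ t : G) = (ev 1 p)⁻¹ := by
    intro t ht
    rw [hψe] at ht
    exact (inv_eq_of_mul_eq_one_right ht).symm
  have v1 := hval x' e1
  have v2 := hval y' e2
  have v3 := hval z' e3
  have v23 := hval (y' * z') e4
  have v12 := hval (x' * y') e5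
  have v13 := hval (x' * z') e6
  have v123 := hval (x' * y' * z') (by
    rw [mul_assoc]; exact e7)
  have := hψ.eq_one x' y' z' (ψ x') rfl (Subtype.ext (v2.trans v1.symm)) (Subtype.ext (v3.trans v1.symm))
    (Subtype.ext (v12.trans v1.symm)) (Subtype.ext (v13.trans v1.symm)) (Subtype.ext (v23.trans v1.symm))
    (Subtype.ext (v123.trans v1.symm))
  rw [this] at v1
  simp only [OneMemClass.coe_one] at v1
  exact hE1 p hp (inv_eq_one.1 v1.symm)

end Pool.Agent.Lib_MP_38b588_al
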