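import Mathlib

/-!
Shared definitions for MP_38b588_al.
-/

set_option autoImplicit false

namespace Pool.Agent.Lib_MP_38b588_al

/-- `InSharp w G` says that `G` is in the class `V^#` relative to the word `w`: for any infinite
subsets `X₁, …, Xₙ` of `G` there are `xᵢ ∈ Xᵢ` with `w(x₁, …, xₙ) = 1`. -/
def InSharp {n : ℕ} (w : FreeGroup (Fin n)) (G : Type*) [Group G] : Prop :=
  ∀ X : Fin n → Set G, (∀ i, (X i).Infinite) →
    ∃ x : Fin n → G, (∀ i, x i ∈ X i) ∧ FreeGroup.lift x w = 1

/-- `IsLaw w G` says that `w = 1` is a law of `G`, that is, `G` is in the variety `V`. -/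
def IsLaw {n : ℕ} (w : FreeGroup (Fin n)) (G : Type*) [Group G] : Prop :=
  ∀ x : Fin n → G, FreeGroup.lift x w = 1

/-- The value at `x` of an element `p` of the free product `G ∗ ⟨t⟩` of `G` with an infinite cyclic
group: the homomorphism `G ∗ ⟨t⟩ → G` which is the identity on `G` and sends `t` to `x`.  So the
one-variable equations with constants in `G` are `ev x p = 1`. -/
def ev {G : Type*} [Group G] (x : G) : Monoid.Coprod G (Multiplicative ℤ) →* G :=
  Monoid.Coprod.lift (MonoidHom.id G) (zpowersHom G x)

/-- `1` is isolated in the verbal (Markov-Zariski) topology of `G`: there are finitely many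
one-variable equations with constants in `G`, none of them satisfied by `1`, such that every
`x ≠ 1` satisfies at least one of them. -/
def VerballyDiscrete (G : Type*) [Group G] : Prop :=
  ∃ E : Finset (Monoid.Coprod G (Multiplicative ℤ)),
    (∀ p ∈ E, ev 1 p ≠ 1) ∧ ∀ x : G, x ≠ 1 → ∃ p ∈ E, ev x p = 1

end Pool.Agent.Lib_MP_38b588_al
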