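import Pool.Agent.Lib_MP_38b588_al.Defs

set_option autoImplicit false

namespace Pool.Agent.Lib_MP_38b588_al

open Monoid.Coprod

variable {G : Type*} [Group G]

@[simp] lemma ev_inl (x g : G) : ev x (inl g) = g := by simp [ev]

@[simp] lemma ev_inr (x : G) (k : Multiplicative ℤ) : ev x (inr k) = x ^ (Multiplicative.toAdd k) := by
  simp [ev]

/-- key step: if `1` is not isolated, a finite table can be extended -/
lemma exists_step {n : ℕ} (w : FreeGroup (Fin n)) (hG : ¬ VerballyDiscrete G) (a : Fin n → G)
    (P : Finset G) (h1 : (1 : G) ∈ P)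
    (hP : ∀ u : Fin n → G, (∀ i, u i ∈ P) → FreeGroup.lift (fun i => a i * u i) w ≠ 1) :
    ∃ x : G, x ∉ P ∧ ∀ u : Fin n → G, (∀ i, u i ∈ P ∨ u i = x) →
      FreeGroup.lift (fun i => a i * u i) w ≠ 1 := by
  classical
  by_contra hcon
  push Not at hcon
  apply hG
  -- the equations
  let q : (Fin n → Option P) → Monoid.Coprod G (Multiplicative ℤ) := fun s =>
    FreeGroup.lift (fun i => inl (a i) *
      (s i).elim (inr (Multiplicative.ofAdd (1 : ℤ))) (fun u => inl (u : G))) w
  have hq : ∀ (s : Fin n → Option P) (x : G), ev x (q s) =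
      FreeGroup.lift (fun i => a i * (s i).elim x (fun u => (u : G))) w := by
    intro s x
    have : (ev x).comp (FreeGroup.lift (fun i => inl (a i) *
      (s i).elim (inr (Multiplicative.ofAdd (1 : ℤ))) (fun u => inl (u : G)))) =
      FreeGroup.lift (fun i => a i * (s i).elim x (fun u => (u : G))) := by
      apply FreeGroup.ext_hom
      intro i
      simp only [MonoidHom.comp_apply, FreeGroup.lift_apply_of, map_mul, ev_inl]
      cases s i with
      | none => simp
      | some u => simp
    exact DFunLike.congr_fun this w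
  refine ⟨(Finset.univ.image q) ∪ ((P.erase 1).image
    (fun u => inr (Multiplicative.ofAdd (1 : ℤ)) * inl u⁻¹)), ?_, ?_⟩
  · intro p hp
    rcases Finset.mem_union.1 hp with hp | hp
    · obtain ⟨s, _, rfl⟩ := Finset.mem_image.1 hp
      rw [hq]
      apply hP
      intro i
      cases s i with
      | none => exact h1
      | some u => exact u.2
    · obtain ⟨u, hu, rfl⟩ := Finset.mem_image.1 hp
      have := Finset.ne_of_mem_erase hu
      simpa using this
  · intro x hx
    by_cases hxP : x ∈ P
    · refine ⟨inr (Multiplicative.ofAdd (1 : ℤ)) * inl x⁻¹, ?_, by simp⟩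
      apply Finset.mem_union_right
      exact Finset.mem_image.2 ⟨x, Finset.mem_erase.2 ⟨hx, hxP⟩, rfl⟩
    · obtain ⟨u, hu, hu1⟩ := hcon x hxP
      let s : Fin n → Option P := fun i => if h : u i ∈ P then some ⟨u i, h⟩ else none
      refine ⟨q s, Finset.mem_union_left _ (Finset.mem_image_of_mem q (Finset.mem_univ s)), ?_⟩
      rw [hq, ← hu1]
      congr 2
      ext i
      congr 1
      by_cases h : u i ∈ P
      · simp [s, h]
      · have : u i = x := (hu i).resolve_left h
        simp [s, this, hxP]

open Classical in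
/-- If `G` is in `V^#` and `w` is not a law of `G`, then `1` is isolated in the verbal topology. -/
theorem verballyDiscrete_of_inSharp {n : ℕ} (w : FreeGroup (Fin n)) (hG : InSharp w G)
    (a : Fin n → G) (ha : FreeGroup.lift a w ≠ 1) : VerballyDiscrete G := by
  by_contra hV
  -- tables
  let Good : Finset G → Prop := fun P => (1 : G) ∈ P ∧
    ∀ u : Fin n → G, (∀ i, u i ∈ P) → FreeGroup.lift (fun i => a i * u i) w ≠ 1
  have hstep : ∀ P : {P : Finset G // Good P}, ∃ x : G, x ∉ P.1 ∧ Good (insert x P.1) := by
    rintro ⟨P, h1, hP⟩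
    obtain ⟨x, hx, hx2⟩ := exists_step w hV a P h1 hP
    refine ⟨x, hx, Finset.mem_insert_of_mem h1, ?_⟩
    intro u hu
    apply hx2
    intro i
    rcases Finset.mem_insert.1 (hu i) with h | h
    · right; exact h
    · left; exact h
  choose f hf1 hf2 using hstep
  have h0 : Good {1} := by
    refine ⟨Finset.mem_singleton_self 1, ?_⟩
    intro u hu
    have : (fun i => a i * u i) = a := by
      ext i
      rw [Finset.mem_singleton.1 (hu i), mul_one]
    rw [this]; exact ha
  let Q : ℕ → {P : Finset G // Good P} := fun k => Nat.rec ⟨{1}, h0⟩ (fun _ P => ⟨insert (f P) P.1, hf2 P⟩) k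
  have hQs : ∀ k, (Q (k+1)).1 = insert (f (Q k)) (Q k).1 := fun k => rfl
  have hmono : Monotone (fun k => (Q k).1) := by
    apply monotone_nat_of_le_succ
    intro k
    show (Q k).1 ≤ (Q (k+1)).1
    rw [hQs]
    exact Finset.subset_insert _ _
  have hmem : ∀ k, f (Q k) ∈ (Q (k+1)).1 := by
    intro k; rw [hQs]; exact Finset.mem_insert_self _ _
  have hinj : Function.Injective (fun k => f (Q k)) := by
    intro k l hkl
    by_contra hne
    rcases Nat.lt_or_gt_of_ne hne with h | h
    · have h1 : f (Q k) ∈ (Q l).1 := hmono h (hmem k)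
      simp only at hkl
      rw [hkl] at h1
      exact hf1 _ h1
    · have h1 : f (Q l) ∈ (Q k).1 := hmono h (hmem l)
      simp only at hkl
      rw [← hkl] at h1
      exact hf1 _ h1
  obtain ⟨x, hx, hx1⟩ := hG (fun i => Set.range (fun k => a i * f (Q k))) (by
    intro i
    apply Set.infinite_range_of_injective
    intro k l hkl
    exact hinj (mul_left_cancel hkl))
  choose k hk using hx
  obtain ⟨K, hK⟩ : ∃ K : ℕ, ∀ i, k i < K := by
    refine ⟨(Finset.univ.sup k) + 1, fun i => Nat.lt_succ_of_le (Finset.le_sup (Finset.mem_univ i))⟩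
  have := (Q K).2.2 (fun i => f (Q (k i))) (fun i => hmono (hK i) (hmem (k i)))
  apply this
  have hxe : (fun i => a i * f (Q (k i))) = x := by
    ext i; exact hk i
  rw [hxe]; exact hx1

/-- A Hausdorff group topology on a verbally discrete group is discrete. -/
theorem discreteTopology_of_verballyDiscrete (hG : VerballyDiscrete G) [TopologicalSpace G]
    [IsTopologicalGroup G] [T2Space G] : DiscreteTopology G := by
  obtain ⟨E, hE1, hE2⟩ := hG
  have hcont : ∀ p : Monoid.Coprod G (Multiplicative ℤ), Continuous (fun x : G => ev x p) := by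
    intro p
    induction p using Monoid.Coprod.induction_on with
    | inl g => simp only [ev_inl]; exact continuous_const
    | inr k => simp only [ev_inr]; exact continuous_zpow _
    | mul p q hp hq => simp only [map_mul]; exact hp.mul hq
  have hopen : IsOpen ({1} : Set G) := by
    have : ({1} : Set G) = ⋂ p ∈ E, {x : G | ev x p ≠ 1} := by
      ext x
      simp only [Set.mem_singleton_iff, Set.mem_iInter, Set.mem_ofPred_eq]
      constructor
      · rintro rfl p hp; exact hE1 p hp
      · intro h
        by_contra hx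
        obtain ⟨p, hp, hp1⟩ := hE2 x hx
        exact h p hp hp1
    rw [this]
    apply isOpen_biInter_finset
    intro p _
    exact isOpen_ne_fun (hcont p) continuous_const
  exact discreteTopology_of_isOpen_singleton_one hopen

end Pool.Agent.Lib_MP_38b588_al
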