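import Pool.Agent.Lib_MP_38b588_al.Greedy

set_option autoImplicit false

namespace Pool.Agent.Lib_MP_38b588_al

open Monoid.Coprod

variable {G : Type*} [Group G] {R : Type*} [CommRing R] {d : ℕ}

/-- index type of the coordinates of `(x, x⁻¹)` -/
abbrev Idx (d : ℕ) : Type := Bool × Fin d × Fin d

/-- coordinates of `(x, x⁻¹)` -/
def pt (φ : G →* (Matrix (Fin d) (Fin d) R)ˣ) (x : G) : Idx d → R := fun t =>
  if t.1 then (φ x : Matrix (Fin d) (Fin d) R) t.2.1 t.2.2
  else ((φ x)⁻¹ : (Matrix (Fin d) (Fin d) R)ˣ).1 t.2.1 t.2.2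

/-- generic matrix and generic inverse matrix -/
noncomputable def gen (R : Type*) [CommRing R] (d : ℕ) (b : Bool) :
    Matrix (Fin d) (Fin d) (MvPolynomial (Idx d) R) :=
  fun i j => MvPolynomial.X (b, i, j)

lemma gen_map_true (φ : G →* (Matrix (Fin d) (Fin d) R)ˣ) (x : G) :
    (gen R d true).map (MvPolynomial.eval (pt φ x)) = (φ x : Matrix (Fin d) (Fin d) R) := by
  ext i j; simp [gen, pt]

lemma gen_map_false (φ : G →* (Matrix (Fin d) (Fin d) R)ˣ) (x : G) :
    (gen R d false).map (MvPolynomial.eval (pt φ x)) = ((φ x)⁻¹ : (Matrix (Fin d) (Fin d) R)ˣ).1 := by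
  ext i j; simp [gen, pt]

/-- every one-variable expression is a matrix of polynomials in the entries of `x` and `x⁻¹` -/
lemma exists_poly (φ : G →* (Matrix (Fin d) (Fin d) R)ˣ) (p : Monoid.Coprod G (Multiplicative ℤ)) :
    ∃ A : Matrix (Fin d) (Fin d) (MvPolynomial (Idx d) R), ∀ x : G,
      A.map (MvPolynomial.eval (pt φ x)) = (φ (ev x p) : Matrix (Fin d) (Fin d) R) := by
  induction p using Monoid.Coprod.induction_on with
  | inl g =>
    refine ⟨(φ g : Matrix (Fin d) (Fin d) R).map MvPolynomial.C, ?_⟩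
    intro x
    ext i j
    simp
  | inr k =>
    obtain ⟨n, hn | hn⟩ := Int.eq_nat_or_neg (Multiplicative.toAdd k)
    · refine ⟨(gen R d true) ^ n, ?_⟩
      intro x
      rw [Matrix.map_pow, gen_map_true, ev_inr, hn]
      simp
    · refine ⟨(gen R d false) ^ n, ?_⟩
      intro x
      rw [Matrix.map_pow, gen_map_false, ev_inr, hn]
      simp
  | mul p q hp hq =>
    obtain ⟨A, hA⟩ := hp
    obtain ⟨B, hB⟩ := hq
    refine ⟨A * B, ?_⟩
    intro x
    rw [Matrix.map_mul, hA, hB, map_mul, map_mul]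
    simp

/-- An infinite linear group over a commutative Noetherian ring is not verbally discrete. -/
theorem not_verballyDiscrete_of_linear [IsNoetherianRing R] [Infinite G]
    (φ : G →* (Matrix (Fin d) (Fin d) R)ˣ) (hφ : Function.Injective φ) : ¬ VerballyDiscrete G := by
  classical
  rintro ⟨E, hE1, hE2⟩
  let Z : Ideal (MvPolynomial (Idx d) R) → Set G := fun I =>
    {x | ∀ f ∈ I, MvPolynomial.eval (pt φ x) f = 0}
  have hne : ({I | (Z I).Infinite} : Set (Ideal (MvPolynomial (Idx d) R))).Nonempty := by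
    refine ⟨⊥, ?_⟩
    have : Z ⊥ = Set.univ := by
      ext x
      simp only [Z, Set.mem_ofPred_eq, Set.mem_univ, iff_true]
      intro f hf
      rw [Ideal.mem_bot.1 hf, map_zero]
    show (Z ⊥).Infinite
    rw [this]; exact Set.infinite_univ
  obtain ⟨I, hI, hmax⟩ := set_has_maximal_iff_noetherian.2
    (inferInstance : IsNoetherianRing (MvPolynomial (Idx d) R)) _ hne
  have hI' : (Z I).Infinite := hI
  obtain ⟨y, hy⟩ := hI'.nonempty
  -- translated equations
  let tr : Monoid.Coprod G (Multiplicative ℤ) →* Monoid.Coprod G (Multiplicative ℤ) :=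
    Monoid.Coprod.lift inl (zpowersHom _ (inr (Multiplicative.ofAdd (1:ℤ)) * inl y⁻¹))
  have htr : ∀ x p, ev x (tr p) = ev (x * y⁻¹) p := by
    intro x p
    have : (ev x).comp tr = ev (x * y⁻¹) := by
      apply Monoid.Coprod.hom_ext
      · ext g; simp [tr]
      · ext; simp [tr]
    exact DFunLike.congr_fun this p
  choose A hA using exists_poly φ
  have hcover : Z I ⊆ {y} ∪ ⋃ p ∈ E, (Z I ∩ {x | ev (x * y⁻¹) p = 1}) := by
    intro x hx
    by_cases hxy : x = y
    · left; exact hxy
    · right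
      have : x * y⁻¹ ≠ 1 := fun h => hxy (mul_inv_eq_one.1 h)
      obtain ⟨p, hp, hp1⟩ := hE2 _ this
      simp only [Set.mem_iUnion]
      exact ⟨p, hp, hx, hp1⟩
  have : ∃ p ∈ E, (Z I ∩ {x | ev (x * y⁻¹) p = 1}).Infinite := by
    by_contra hcon
    push Not at hcon
    apply hI'
    apply Set.Finite.subset _ hcover
    apply (Set.finite_singleton y).union
    apply Set.Finite.biUnion E.finite_toSet
    intro p hp
    exact hcon p hp
  obtain ⟨p, hp, hinf⟩ := this
  let J : Ideal (MvPolynomial (Idx d) R) :=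
    I ⊔ Ideal.span (Set.range (fun t : Fin d × Fin d => (A (tr p) - 1) t.1 t.2))
  have hJ : Z I ∩ {x | ev (x * y⁻¹) p = 1} ⊆ Z J := by
    rintro x ⟨hx, hx1⟩ f hf
    have hle : J ≤ RingHom.ker (MvPolynomial.eval (pt φ x)) := by
      apply sup_le
      · intro g hg
        exact hx g hg
      · rw [Ideal.span_le]
        rintro _ ⟨t, rfl⟩
        have h1 : (A (tr p) - 1).map (MvPolynomial.eval (pt φ x)) = 0 := by
          rw [Matrix.map_sub _ (map_sub _), hA, htr, hx1, map_one]
          simp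
        have h2 := congrFun (congrFun h1 t.1) t.2
        simpa using h2
    exact hle hf
  have hJinf : (Z J).Infinite := hinf.mono hJ
  have hJI : J = I := by
    by_contra hne
    exact hmax J hJinf (lt_of_le_of_ne le_sup_left (Ne.symm hne))
  -- `y` satisfies the equation
  have hyp : ∀ t : Fin d × Fin d, MvPolynomial.eval (pt φ y) ((A (tr p) - 1) t.1 t.2) = 0 := by
    intro t
    apply hy
    rw [← hJI]
    exact (le_sup_right : _ ≤ J) (Ideal.subset_span ⟨t, rfl⟩)
  have h1 : (φ (ev y (tr p)) : Matrix (Fin d) (Fin d) R) = 1 := by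
    rw [← hA]
    ext i j
    have := hyp (i, j)
    simp only [Matrix.sub_apply, map_sub, sub_eq_zero] at this
    rw [Matrix.map_apply, this]
    by_cases hij : i = j
    · subst hij; simp
    · simp [Matrix.one_apply_ne hij]
  rw [htr, mul_inv_cancel] at h1
  have h2 : φ (ev 1 p) = φ 1 := by
    rw [map_one]; exact Units.ext h1
  exact hE1 p hp (hφ h2)

end Pool.Agent.Lib_MP_38b588_al
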