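import Pool.Agent.Lib_MP_38b588_al.Greedy

set_option autoImplicit false

namespace Pool.Agent.Lib_MP_38b588_al

open Monoid.Coprod
open scoped commutatorElement

/-- nilpotent of class at most two -/
def TwoStep (K : Type*) [Group K] : Prop := ∀ x y z : K, Commute ⁅x, y⁆ z

/-- quadratic maps on a group -/
def IsQuad {K : Type*} [Group K] (ψ : K → K) : Prop :=
  ∃ β : K → K → K, (∀ x y z, Commute (β x y) z) ∧ (∀ x y, ψ (x * y) = ψ x * ψ y * β x y) ∧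
    ∀ x x' y, β (x * x') y = β x y * β x' y

section quad

variable {K : Type*} [Group K]

lemma IsQuad.const_one : IsQuad (fun _ : K => (1 : K)) :=
  ⟨fun _ _ => 1, fun _ _ z => Commute.one_left z, by simp, by simp⟩

lemma IsQuad.id : IsQuad (fun x : K => x) :=
  ⟨fun _ _ => 1, fun _ _ z => Commute.one_left z, by simp, by simp⟩

lemma IsQuad.comp_equiv {ψ : K → K} (h : IsQuad ψ) (φ : K ≃* K) : IsQuad (fun x => φ (ψ x)) := by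
  obtain ⟨β, h1, h2, h3⟩ := h
  refine ⟨fun x y => φ (β x y), ?_, ?_, ?_⟩
  · intro x y z
    have := (h1 x y (φ.symm z)).map φ
    simpa using this
  · intro x y; simp [h2]
  · intro x x' y; simp [h3]

/-- in a two-step group, commutators are multiplicative -/
lemma TwoStep.comm_mul (hK : TwoStep K) (a b c z : K) (hz : ∀ t, Commute z t) :
    ⁅a⁻¹, (b * c * z)⁻¹⁆ = ⁅a⁻¹, b⁻¹⁆ * ⁅a⁻¹, c⁻¹⁆ := by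
  have h1 : ⁅a⁻¹, (b * c * z)⁻¹⁆ = a⁻¹ * (z⁻¹ * c⁻¹ * b⁻¹) * a * (b * c * z) := by
    simp [commutatorElement_def, mul_assoc]
  have hz1 : a⁻¹ * (z⁻¹ * c⁻¹ * b⁻¹) * a * (b * c * z) = a⁻¹ * (c⁻¹ * b⁻¹) * a * (b * c) := by
    have e1 : a⁻¹ * (z⁻¹ * c⁻¹ * b⁻¹) * a * (b * c * z) = a⁻¹ * z⁻¹ * (c⁻¹ * b⁻¹ * a * (b * c)) * z := by
      simp [mul_assoc]
    rw [e1, mul_assoc, ← (hz _).eq, ← mul_assoc]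
    have e2 : a⁻¹ * z⁻¹ * z * (c⁻¹ * b⁻¹ * a * (b * c)) = a⁻¹ * (c⁻¹ * b⁻¹) * a * (b * c) := by
      simp [mul_assoc]
    exact e2
  have h2 : a⁻¹ * (c⁻¹ * b⁻¹) * a * (b * c) = (a⁻¹ * c⁻¹ * a) * ⁅a⁻¹, b⁻¹⁆ * c := by
    simp [commutatorElement_def, mul_assoc]
  rw [h1, hz1, h2, mul_assoc, (hK a⁻¹ b⁻¹ c).eq, ← mul_assoc]
  have h3 : a⁻¹ * c⁻¹ * a * c = ⁅a⁻¹, c⁻¹⁆ := by simp [commutatorElement_def]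
  rw [h3, (hK a⁻¹ c⁻¹ _).eq]

lemma IsQuad.mul (hK : TwoStep K) {ψ₁ ψ₂ : K → K} (h₁ : IsQuad ψ₁) (h₂ : IsQuad ψ₂) :
    IsQuad (fun x => ψ₁ x * ψ₂ x) := by
  obtain ⟨β₁, a1, a2, a3⟩ := h₁
  obtain ⟨β₂, b1, b2, b3⟩ := h₂
  refine ⟨fun x y => β₁ x y * β₂ x y * ⁅(ψ₁ y)⁻¹, (ψ₂ x)⁻¹⁆, ?_, ?_, ?_⟩
  · intro x y z
    exact ((a1 x y z).mul_left (b1 x y z)).mul_left (hK _ _ _)
  · intro x y
    have e : ψ₁ y * ψ₂ x = ψ₂ x * ψ₁ y * ⁅(ψ₁ y)⁻¹, (ψ₂ x)⁻¹⁆ := by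
      simp [commutatorElement_def, mul_assoc]
    calc ψ₁ (x * y) * ψ₂ (x * y) = ψ₁ x * ψ₁ y * β₁ x y * (ψ₂ x * ψ₂ y * β₂ x y) := by rw [a2, b2]
      _ = ψ₁ x * ψ₁ y * (β₁ x y * (ψ₂ x * ψ₂ y * β₂ x y)) := by rw [mul_assoc]
      _ = ψ₁ x * ψ₁ y * (ψ₂ x * ψ₂ y * β₂ x y * β₁ x y) := by rw [(a1 x y _).eq]
      _ = ψ₁ x * (ψ₁ y * ψ₂ x) * (ψ₂ y * (β₂ x y * β₁ x y)) := by simp only [mul_assoc]
      _ = ψ₁ x * (ψ₂ x * ψ₁ y * ⁅(ψ₁ y)⁻¹, (ψ₂ x)⁻¹⁆) * (ψ₂ y * (β₂ x y * β₁ x y)) := by rw [e]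
      _ = ψ₁ x * ψ₂ x * ψ₁ y * (⁅(ψ₁ y)⁻¹, (ψ₂ x)⁻¹⁆ * (ψ₂ y * (β₂ x y * β₁ x y))) := by
          simp only [mul_assoc]
      _ = ψ₁ x * ψ₂ x * ψ₁ y * ((ψ₂ y * (β₂ x y * β₁ x y)) * ⁅(ψ₁ y)⁻¹, (ψ₂ x)⁻¹⁆) := by
          rw [(hK _ _ _).eq]
      _ = ψ₁ x * ψ₂ x * (ψ₁ y * ψ₂ y) * (β₂ x y * β₁ x y * ⁅(ψ₁ y)⁻¹, (ψ₂ x)⁻¹⁆) := by
          simp only [mul_assoc]
      _ = _ := by rw [(b1 x y (β₁ x y)).eq]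
  · intro x x' y
    have e : ⁅(ψ₁ y)⁻¹, (ψ₂ (x * x'))⁻¹⁆ = ⁅(ψ₁ y)⁻¹, (ψ₂ x)⁻¹⁆ * ⁅(ψ₁ y)⁻¹, (ψ₂ x')⁻¹⁆ := by
      rw [b2]; exact hK.comm_mul _ _ _ _ (b1 x x')
    simp only
    rw [e, a3, b3]
    have c1 : β₁ x y * β₁ x' y * (β₂ x y * β₂ x' y) *
        (⁅(ψ₁ y)⁻¹, (ψ₂ x)⁻¹⁆ * ⁅(ψ₁ y)⁻¹, (ψ₂ x')⁻¹⁆) =
        β₁ x y * (β₁ x' y * β₂ x y) * β₂ x' y *
        (⁅(ψ₁ y)⁻¹, (ψ₂ x)⁻¹⁆ * ⁅(ψ₁ y)⁻¹, (ψ₂ x')⁻¹⁆) := by simp only [mul_assoc]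
    rw [c1, (a1 x' y (β₂ x y)).eq]
    have c2 : β₁ x y * (β₂ x y * β₁ x' y) * β₂ x' y *
        (⁅(ψ₁ y)⁻¹, (ψ₂ x)⁻¹⁆ * ⁅(ψ₁ y)⁻¹, (ψ₂ x')⁻¹⁆) =
        β₁ x y * β₂ x y * ((β₁ x' y * β₂ x' y *
        ⁅(ψ₁ y)⁻¹, (ψ₂ x)⁻¹⁆) * ⁅(ψ₁ y)⁻¹, (ψ₂ x')⁻¹⁆) := by simp only [mul_assoc]
    rw [c2, ← (hK _ _ (β₁ x' y * β₂ x' y)).eq]
    simp only [mul_assoc]

/-- inversion is quadratic -/
lemma IsQuad.inv (hK : TwoStep K) : IsQuad (fun x : K => x⁻¹) := by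
  refine ⟨fun x y => ⁅y⁻¹, x⁻¹⁆⁻¹⁻¹, ?_, ?_, ?_⟩
  · intro x y z; simpa using hK _ _ z
  · intro x y
    have : (x * y)⁻¹ = x⁻¹ * y⁻¹ * ⁅y, x⁆ := by simp [commutatorElement_def, mul_assoc]
    show (x * y)⁻¹ = x⁻¹ * y⁻¹ * ⁅y⁻¹, x⁻¹⁆⁻¹⁻¹
    rw [this]
    congr 1
    have h1 : ⁅y⁻¹, x⁻¹⁆ = y⁻¹ * ⁅x⁻¹, y⁆ * y := by simp [commutatorElement_def, mul_assoc]
    have h2 : ⁅x⁻¹, y⁆ = x⁻¹ * ⁅y, x⁆ * x := by simp [commutatorElement_def, mul_assoc]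
    rw [inv_inv, h1, mul_assoc, (hK x⁻¹ y y).eq, ← mul_assoc, inv_mul_cancel, one_mul, h2, mul_assoc,
      (hK y x x).eq, ← mul_assoc, inv_mul_cancel, one_mul]
  · intro x x' y
    simp only [inv_inv]
    have := hK.comm_mul y x x' 1 (fun t => Commute.one_left t)
    simpa using this

/-- the contradiction lemma: a quadratic map constant on seven products of a triple -/
lemma IsQuad.eq_one {ψ : K → K} (h : IsQuad ψ) (x y z e : K)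
    (h1 : ψ x = e) (h2 : ψ y = e) (h3 : ψ z = e) (h12 : ψ (x * y) = e) (h13 : ψ (x * z) = e)
    (h23 : ψ (y * z) = e) (h123 : ψ (x * y * z) = e) : e = 1 := by
  obtain ⟨β, b1, b2, b3⟩ := h
  have k1 : e * β x z = 1 := by
    have := b2 x z
    rw [h13, h1, h3, mul_assoc] at this
    exact (left_eq_mul.1 this)
  have k2 : e * β y z = 1 := by
    have := b2 y z
    rw [h23, h2, h3, mul_assoc] at this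
    exact (left_eq_mul.1 this)
  have k3 := b2 (x * y) z
  rw [h123, h12, h3, b3, mul_assoc, left_eq_mul] at k3
  -- e * (β x z * β y z) = 1
  have : e * (β x z * β y z) = β y z := by rw [← mul_assoc, k1, one_mul]
  rw [this] at k3
  rw [k3, mul_one] at k2
  exact k2

end quad

end Pool.Agent.Lib_MP_38b588_al
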