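import Pool.Agent.Lib_MP_38b588_al.Bounded

set_option autoImplicit false

namespace Pool.Agent.Lib_MP_38b588_al

open scoped commutatorElement

section structureLemma

variable {K : Type*} [Group K]

/-- a family of subgroups of bounded order has a member of greatest order -/
lemma exists_max (𝒜 : Subgroup K → Prop) (N : ℕ) (h0 : ∃ A, 𝒜 A)
    (h : ∀ A, 𝒜 A → Finite A ∧ Nat.card A ≤ N) :
    ∃ A, 𝒜 A ∧ ∀ A', 𝒜 A' → A ≤ A' → A' = A := by
  classical
  let s : Set ℕ := {n | ∃ A, 𝒜 A ∧ Nat.card A = n}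
  have hne : s.Nonempty := by
    obtain ⟨A, hA⟩ := h0
    exact ⟨_, A, hA, rfl⟩
  have hbdd : BddAbove s := ⟨N, by rintro _ ⟨A, hA, rfl⟩; exact (h A hA).2⟩
  obtain ⟨A, hA, hc⟩ := Nat.sSup_mem hne hbdd
  refine ⟨A, hA, fun A' hA' hle => ?_⟩
  have := (h A' hA').1
  have : Nat.card A' ≤ Nat.card A := by
    rw [hc]; exact le_csSup hbdd ⟨A', hA', rfl⟩
  exact (Subgroup.eq_of_le_of_card_ge hle this).symm

theorem card_le_of_solvable (R : Subgroup K) [hRn : R.Normal] [hRs : Group.IsSolvable R] (N : ℕ)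
    (hN : ∀ M : Subgroup K, M.Normal → TwoStep M → Finite M ∧ Nat.card M ≤ N) :
    Finite R ∧ Nat.card R ≤ N ^ N * N := by
  classical
  -- maximal abelian normal subgroup inside `R`
  obtain ⟨A, ⟨hAn, hAR, hAab⟩, hAmax⟩ := exists_max
    (fun A : Subgroup K => A.Normal ∧ A ≤ R ∧ ∀ x ∈ A, ∀ y ∈ A, x * y = y * x) N
    ⟨⊥, inferInstance, bot_le, by
      intro x hx y hy; rw [Subgroup.mem_bot.1 hx, Subgroup.mem_bot.1 hy]⟩
    (by
      rintro A ⟨h1, _, h3⟩
      apply hN A h1
      intro x y z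
      have : ⁅x, y⁆ = 1 := by
        rw [commutatorElement_eq_one_iff_mul_comm]
        exact Subtype.ext (h3 x x.2 y y.2)
      rw [this]; exact Commute.one_left z)
  -- `M` maximal
  obtain ⟨M, ⟨hMn, hAM, hMR, hMA, hMc⟩, hMmax⟩ := exists_max
    (fun M : Subgroup K => M.Normal ∧ A ≤ M ∧ M ≤ R ∧ (∀ x ∈ M, ∀ a ∈ A, x * a = a * x) ∧
      ∀ x ∈ M, ∀ y ∈ M, ⁅x, y⁆ ∈ A) N
    ⟨A, hAn, le_refl _, hAR, hAab, by
      intro x hx y hy
      rw [commutatorElement_eq_one_iff_mul_comm.2 (hAab x hx y hy)]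
      exact A.one_mem⟩
    (by
      rintro M ⟨h1, _, _, h4, h5⟩
      apply hN M h1
      intro x y z
      have := h4 z z.2 _ (h5 x x.2 y y.2)
      exact Subtype.ext this.symm)
  have hMtwo : TwoStep M := by
    intro x y z
    have := hMA z z.2 _ (hMc x x.2 y y.2)
    exact Subtype.ext this.symm
  obtain ⟨hMfin, hMcard⟩ := hN M hMn hMtwo
  -- the centre of `M` is `A`
  have hZ : ∀ x ∈ M, (∀ y ∈ M, x * y = y * x) → x ∈ A := by
    have hcn : (Subgroup.centralizer (M : Set K)).Normal := Subgroup.normal_centralizer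
    have := hAmax (M ⊓ Subgroup.centralizer (M : Set K)) ⟨inferInstance, inf_le_left.trans hMR, by
        rintro x ⟨hx, hx'⟩ y ⟨hy, _⟩
        exact ((Subgroup.mem_centralizer_iff.1 hx') y hy).symm⟩ (by
        intro a ha
        refine ⟨hAM ha, ?_⟩
        refine Subgroup.mem_centralizer_iff.2 ?_
        intro m hm
        exact hMA m hm a ha)
    intro x hx hxc
    rw [← this]
    refine ⟨hx, Subgroup.mem_centralizer_iff.2 ?_⟩
    intro m hm
    exact (hxc m hm).symm
  -- the centralizer of `M` in `R` is inside `A`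
  have hD : ∀ x ∈ R, (∀ y ∈ M, x * y = y * x) → x ∈ A := by
    by_contra hcon
    push Not at hcon
    obtain ⟨x₀, hx₀R, hx₀c, hx₀A⟩ := hcon
    set D : Subgroup K := R ⊓ Subgroup.centralizer (M : Set K) with hDdef
    have hcn : (Subgroup.centralizer (M : Set K)).Normal := Subgroup.normal_centralizer
    have hDn : D.Normal := inferInstance
    have hDs : Group.IsSolvable D := Group.isSolvable_of_isSolvable_injective (Subgroup.inclusion_injective (inf_le_left : D ≤ R))
    have hDc : ∀ x ∈ D, ∀ y ∈ M, x * y = y * x := by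
      intro x hx y hy
      exact ((Subgroup.mem_centralizer_iff.1 hx.2) y hy).symm
    have hx₀D : x₀ ∈ D := by
      refine ⟨hx₀R, Subgroup.mem_centralizer_iff.2 ?_⟩
      intro m hm; exact (hx₀c m hm).symm
    obtain ⟨k, hk⟩ := hDs.solvable
    have hex : ∃ j, (derivedSeries D j).map D.subtype ≤ A := ⟨k, by rw [hk]; simp⟩
    have h0 : Nat.find hex ≠ 0 := by
      intro h
      have := Nat.find_spec hex
      rw [h, derivedSeries_zero] at this
      apply hx₀A
      apply this
      exact ⟨⟨x₀, hx₀D⟩, Subgroup.mem_top _, rfl⟩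
    obtain ⟨j, hj⟩ := Nat.exists_eq_succ_of_ne_zero h0
    have hj1 : (derivedSeries D (j+1)).map D.subtype ≤ A := by
      have := Nat.find_spec hex
      rwa [hj] at this
    have hj2 : ¬ (derivedSeries D j).map D.subtype ≤ A := by
      apply Nat.find_min hex
      rw [hj]; exact Nat.lt_succ_self j
    set L : Subgroup K := (derivedSeries D j).map D.subtype with hL
    have hLn : L.Normal := inferInstance
    have hLD : L ≤ D := by
      rintro _ ⟨y, _, rfl⟩; exact y.2
    have hLc : ∀ x ∈ L, ∀ y ∈ L, ⁅x, y⁆ ∈ A := by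
      rintro _ ⟨x, hx, rfl⟩ _ ⟨y, hy, rfl⟩
      apply hj1
      refine ⟨⁅x, y⁆, ?_, by simp⟩
      rw [derivedSeries_succ]
      exact Subgroup.commutator_mem_commutator hx hy
    have hM' := hMmax (M ⊔ L) ⟨inferInstance, hAM.trans le_sup_left,
      sup_le hMR (hLD.trans inf_le_left), by
        intro x hx a ha
        obtain ⟨m, hm, l, hl, rfl⟩ := Subgroup.mem_sup_of_normal_right.1 hx
        have e1 := hDc l (hLD hl) a (hAM ha)
        have e2 := hMA m hm a ha
        rw [mul_assoc, e1, ← mul_assoc, e2, mul_assoc], by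
        intro x hx y hy
        obtain ⟨m, hm, l, hl, rfl⟩ := Subgroup.mem_sup_of_normal_right.1 hx
        obtain ⟨m', hm', l', hl', rfl⟩ := Subgroup.mem_sup_of_normal_right.1 hy
        have c1 : l * m' = m' * l := hDc l (hLD hl) m' hm'
        have c2 : l' * m = m * l' := hDc l' (hLD hl') m hm
        have e : ⁅m * l, m' * l'⁆ = ⁅m, m'⁆ * ⁅l, l'⁆ := by
          have d1 : Commute l m' := c1
          have d2 : Commute l' m := c2
          simp only [commutatorElement_def, mul_inv_rev]
          calc m * l * (m' * l') * (l⁻¹ * m⁻¹) * (l'⁻¹ * m'⁻¹)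
              = m * (l * m') * l' * l⁻¹ * (m⁻¹ * l'⁻¹) * m'⁻¹ := by simp only [mul_assoc]
            _ = m * (m' * l) * l' * l⁻¹ * (l'⁻¹ * m⁻¹) * m'⁻¹ := by
                rw [d1.eq, (d2.inv_inv).eq]
            _ = m * m' * (l * l' * l⁻¹ * l'⁻¹) * (m⁻¹ * m'⁻¹) := by simp only [mul_assoc]
            _ = m * m' * ((m⁻¹ * m'⁻¹) * (l * l' * l⁻¹ * l'⁻¹)) := by
                have d3 : Commute (l * l' * l⁻¹ * l'⁻¹) (m⁻¹ * m'⁻¹) := by
                  have q1 : ∀ t ∈ M, Commute l t := fun t ht => hDc l (hLD hl) t ht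
                  have q2 : ∀ t ∈ M, Commute l' t := fun t ht => hDc l' (hLD hl') t ht
                  have ht : m⁻¹ * m'⁻¹ ∈ M := M.mul_mem (M.inv_mem hm) (M.inv_mem hm')
                  exact (((q1 _ ht).mul_left (q2 _ ht)).mul_left (q1 _ ht).inv_left).mul_left
                    (q2 _ ht).inv_left
                rw [mul_assoc (m * m'), d3.eq]
            _ = m * m' * m⁻¹ * m'⁻¹ * (l * l' * l⁻¹ * l'⁻¹) := by simp only [mul_assoc]
        rw [e]
        exact A.mul_mem (hMc m hm m' hm') (hLc l hl l' hl')⟩ le_sup_left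
    apply hj2
    intro l hl
    have hlM : l ∈ M := by
      rw [← hM']; exact (le_sup_right : L ≤ M ⊔ L) hl
    exact hZ l hlM (hDc l (hLD hl))
  -- counting
  obtain ⟨hAfin, hAcard⟩ := hN A hAn (by
    intro x y z
    have : ⁅x, y⁆ = 1 := by
      rw [commutatorElement_eq_one_iff_mul_comm]
      exact Subtype.ext (hAab x x.2 y y.2)
    rw [this]; exact Commute.one_left z)
  let f : R → (M → M) := fun r m => ⟨r * m * (r : K)⁻¹, hMn.conj_mem m m.2 r⟩
  let g : (M → M) → R := fun h => if hh : ∃ r, f r = h then hh.choose else 1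
  have hg : ∀ r, f (g (f r)) = f r := by
    intro r
    have hh : ∃ r', f r' = f r := ⟨r, rfl⟩
    simp only [g, dif_pos hh]
    exact hh.choose_spec
  have hgA : ∀ r : R, ((g (f r) : K))⁻¹ * r ∈ A := by
    intro r
    apply hD
    · exact R.mul_mem (R.inv_mem (g (f r)).2) r.2
    · intro y hy
      have h1 := congrFun (hg r) ⟨y, hy⟩
      have h2 : (g (f r) : K) * y * (g (f r) : K)⁻¹ = r * y * (r : K)⁻¹ := congrArg Subtype.val h1
      set u : K := (g (f r) : K)
      have h3 : (r : K) * y = u * y * u⁻¹ * r := by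
        rw [h2]; simp
      calc u⁻¹ * r * y = u⁻¹ * (r * y) := by rw [mul_assoc]
        _ = u⁻¹ * (u * y * u⁻¹ * r) := by rw [h3]
        _ = y * (u⁻¹ * r) := by simp [mul_assoc]
  let ι : R → (M → M) × A := fun r => (f r, ⟨_, hgA r⟩)
  have hι : Function.Injective ι := by
    intro r s h
    have h1 : f r = f s := congrArg Prod.fst h
    have h2 : ((g (f r) : K))⁻¹ * r = ((g (f s) : K))⁻¹ * s := congrArg (fun t => (t.2 : K)) h
    rw [h1] at h2
    exact Subtype.ext (mul_left_cancel h2)
  refine ⟨Finite.of_injective ι hι, ?_⟩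
  calc Nat.card R ≤ Nat.card ((M → M) × A) := Nat.card_le_card_of_injective ι hι
    _ = Nat.card M ^ Nat.card M * Nat.card A := by
        rw [Nat.card_prod, Nat.card_fun]
    _ ≤ N ^ N * N := by
        refine Nat.mul_le_mul ?_ hAcard
        exact (Nat.pow_le_pow_left hMcard _).trans
          (Nat.pow_le_pow_right (lt_of_lt_of_le Nat.card_pos hMcard) hMcard)

end structureLemma

/-- In a verbally discrete group, the solvable subgroups normalized by a certain finite set have
bounded order. -/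
theorem solvable_bounded_of_verballyDiscrete {G : Type*} [Group G] (hV : VerballyDiscrete G) :
    ∃ (S : Finset G) (N : ℕ), ∀ T : Subgroup G, Group.IsSolvable T →
      (∀ s ∈ S, s ∈ Subgroup.normalizer (T : Set G)) → Finite T ∧ Nat.card T ≤ N := by
  classical
  obtain ⟨S, N, hN⟩ := bounded_of_verballyDiscrete hV
  refine ⟨S, N ^ N * N, fun T hTs hTn => ?_⟩
  set H : Subgroup G := Subgroup.closure ((S : Set G) ∪ T) with hH
  have hHn : H ≤ Subgroup.normalizer (T : Set G) := by
    rw [hH, Subgroup.closure_le]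
    rintro x (hx | hx)
    · exact hTn x hx
    · exact Subgroup.le_normalizer hx
  have hTH : T ≤ H := fun x hx => Subgroup.subset_closure (Or.inr hx)
  have hnorm : (T.subgroupOf H).Normal := by
    constructor
    intro x hx g
    rw [Subgroup.mem_subgroupOf] at hx ⊢
    exact (Subgroup.mem_normalizer_iff.1 (hHn g.2) _).1 hx
  have hsol : Group.IsSolvable (T.subgroupOf H) := by
    apply Group.isSolvable_of_isSolvable_injective (f := (Subgroup.subgroupOfEquivOfLe hTH).toMonoidHom)
    exact (Subgroup.subgroupOfEquivOfLe hTH).injective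
  have hcard := card_le_of_solvable (T.subgroupOf H) N (by
    intro M hMn hMt
    have e : M ≃* M.map H.subtype := Subgroup.equivMapOfInjective M H.subtype H.subtype_injective
    have h1 := hN (M.map H.subtype) (by
      intro s hsS
      rw [Subgroup.mem_normalizer_iff]
      have hsH : s ∈ H := Subgroup.subset_closure (Or.inl hsS)
      intro x
      constructor
      · rintro ⟨y, hy, rfl⟩
        exact ⟨⟨s, hsH⟩ * y * ⟨s, hsH⟩⁻¹, hMn.conj_mem y hy _, rfl⟩
      · rintro ⟨y, hy, hyx⟩
        refine ⟨⟨s, hsH⟩⁻¹ * y * ⟨s, hsH⟩, ?_, ?_⟩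
        · have := hMn.conj_mem y hy ⟨s, hsH⟩⁻¹
          rwa [inv_inv] at this
        · have : (y : G) = s * x * s⁻¹ := hyx
          simp [this, mul_assoc]) (by
      intro x y z
      have := (hMt (e.symm x) (e.symm y) (e.symm z)).map e
      simpa [map_commutatorElement] using this)
    have := h1.1
    refine ⟨Finite.of_equiv _ e.symm.toEquiv, ?_⟩
    rw [Nat.card_congr e.toEquiv]; exact h1.2)
  obtain ⟨hfin, hc⟩ := hcard
  have e := (Subgroup.subgroupOfEquivOfLe hTH).toEquiv
  refine ⟨Finite.of_equiv _ e, ?_⟩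
  rw [← Nat.card_congr e]; exact hc

end Pool.Agent.Lib_MP_38b588_al
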